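import Pool.Agent.H773.CS.Stm

/-!
CS-LAB: rational numbers satisfying the linear relations give admissible labels
(helper597 for helper773).
-/

set_option autoImplicit false

namespace Pool.Agent.H597.CS

open Pool.Agent.H773.CS

variable {q : ℕ}

theorem labl_zero (col : ℕ → Fin q) {x : ℚ} (h : lev x = 0) : labl col x = .A (par x) := by
  unfold labl
  rw [if_pos h]

theorem labl_pos (col : ℕ → Fin q) {x : ℚ} (h : lev x ≠ 0) : labl col x = .C (col (lev x)) := by
  unfold labl
  rw [if_neg h]

theorem coarse_iff (col : ℕ → Fin q) {x y : ℚ} (h : col (lev x) = col (lev y) → lev x = lev y) :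
    coarse (labl col x) = coarse (labl col y) ↔ lev x = lev y := by
  by_cases hx : lev x = 0
  · by_cases hy : lev y = 0
    · rw [labl_zero col hx, labl_zero col hy, hx, hy]
      exact ⟨fun _ => rfl, fun _ => rfl⟩
    · rw [labl_zero col hx, labl_pos col hy]
      constructor
      · intro h1
        exact absurd h1 (by simp [coarse])
      · intro h1
        exact absurd (h1.symm.trans hx) hy
  · by_cases hy : lev y = 0
    · rw [labl_pos col hx, labl_zero col hy]
      constructor
      · intro h1
        exact absurd h1 (by simp [coarse])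
      · intro h1
        exact absurd (h1.trans hy) hx
    · rw [labl_pos col hx, labl_pos col hy]
      constructor
      · intro h1
        exact h (by simpa [coarse] using h1)
      · intro h1
        rw [h1]

theorem labl_A (col : ℕ → Fin q) {x : ℚ} {t : ZMod 2} (h : labl col x = .A t) :
    lev x = 0 ∧ par x = t := by
  by_cases hx : lev x = 0
  · rw [labl_zero col hx] at h
    exact ⟨hx, by simpa using h⟩
  · rw [labl_pos col hx] at h
    exact absurd h (by simp)

theorem labl_C (col : ℕ → Fin q) {x : ℚ} {c : Fin q} (h : labl col x = .C c) :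
    lev x ≠ 0 ∧ col (lev x) = c := by
  by_cases hx : lev x = 0
  · rw [labl_zero col hx] at h
    exact absurd h (by simp)
  · rw [labl_pos col hx] at h
    exact ⟨hx, by simpa using h⟩

theorem t_lab (hlev : S_lev) : S_lab := by
  obtain ⟨h1, h2, h3, h4, h5⟩ := hlev
  intro q a w col hinj ha2 ha4 ha9 ha9'
  -- the level of a sum with a carry
  have hs : ∀ (x y : ℚ) (b : Bool), lev (x + y - (if b = true then 1 else 0)) = lev (x + y) := by
    intro x y b
    cases b
    · simp
    · simp only [if_true]
      exact h4 _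
  have hL : ∀ x y : ℚ, (lev x < lev y → lev (x + y) = lev y) ∧
      (lev y < lev x → lev (x + y) = lev x) ∧ (lev x = lev y → 0 < lev x → lev (x + y) < lev x) ∧
      (lev x = 0 → lev y = 0 → lev (x + y) = 0) := by
    intro x y
    refine ⟨h1 x y, fun h => ?_, h2 x y, fun hx hy => (h3 x y hx hy).1⟩
    rw [add_comm]
    exact h1 y x h
  have e2 : lev (a 2) = lev (a 1 + a 0) := by rw [ha2, hs]
  have e4 : lev (a 4) = lev (a 3 + a 0) := by rw [ha4, hs]
  obtain ⟨p1, p2, p3, p4⟩ := hL (a 1) (a 0)
  obtain ⟨q1, q2, q3, q4⟩ := hL (a 3) (a 0)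
  rw [← e2] at p1 p2 p3 p4
  rw [← e4] at q1 q2 q3 q4
  have hc : ∀ r s, coarse (labl col (a r)) = coarse (labl col (a s)) ↔ lev (a r) = lev (a s) :=
    fun r s => coarse_iff col (hinj r s)
  refine ⟨?_, ?_, ?_, ?_, ?_⟩
  · intro r
    show IsLab (labl col (a r))
    by_cases hr : lev (a r) = 0
    · rw [labl_zero col hr]
      exact Or.inl ⟨_, rfl⟩
    · rw [labl_pos col hr]
      exact Or.inr ⟨_, rfl⟩
  · show coarse (labl col (a 1)) = coarse (labl col (a 0)) ∨
      coarse (labl col (a 1)) = coarse (labl col (a 2)) ∨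
      coarse (labl col (a 0)) = coarse (labl col (a 2))
    rw [hc, hc, hc]
    rcases lt_trichotomy (lev (a 1)) (lev (a 0)) with h | h | h
    · exact Or.inr (Or.inr (p1 h).symm)
    · exact Or.inl h
    · exact Or.inr (Or.inl (p2 h).symm)
  · rintro c ⟨g1, g0, g2⟩
    obtain ⟨n1, k1⟩ := labl_C col g1
    obtain ⟨n0, k0⟩ := labl_C col g0
    obtain ⟨n2, k2⟩ := labl_C col g2
    have l1 : lev (a 1) = lev (a 0) := hinj 1 0 (k1.trans k0.symm)
    have l2 : lev (a 2) = lev (a 1) := hinj 2 1 (k2.trans k1.symm)
    have := p3 l1 (Nat.pos_of_ne_zero n1)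
    omega
  · show coarse (labl col (a 1)) = coarse (labl col (a 3)) →
      (coarse (labl col (a 2)) = coarse (labl col (a 1)) ↔
        coarse (labl col (a 4)) = coarse (labl col (a 3)))
    rw [hc, hc, hc]
    intro h13
    rcases lt_trichotomy (lev (a 1)) (lev (a 0)) with h | h | h
    · have u1 := p1 h
      have u2 := q1 (by omega)
      omega
    · rcases Nat.eq_zero_or_pos (lev (a 1)) with h0 | h0
      · have u1 := p4 h0 (by omega)
        have u2 := q4 (by omega) (by omega)
        omega
      · have u1 := p3 h h0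
        have u2 := q3 (by omega) (by omega)
        omega
    · have u1 := p2 h
      have u2 := q2 (by omega)
      omega
  · intro t5 t6 t7 t8 t9 g5 g6 g7 g8 g9
    obtain ⟨z5, k5⟩ := labl_A col g5
    obtain ⟨z6, k6⟩ := labl_A col g6
    obtain ⟨z7, k7⟩ := labl_A col g7
    obtain ⟨z8, k8⟩ := labl_A col g8
    obtain ⟨z9, k9⟩ := labl_A col g9
    have m1 := h3 _ _ z5 z6
    have m2 := h3 _ _ z7 z8
    have m3 := h5 _ m2.1
    refine ⟨?_, ?_⟩
    · rw [← k9, ← k5, ← k6, ha9]
      exact m1.2
    · rw [← k9, ← k7, ← k8, ha9', m3, m2.2]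

end Pool.Agent.H597.CS
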